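import Pool.Agent.Helper4.AU.Defs

/-!
# AU, block U1b: existence of a list of bounded length which is closed under the operations of the tree; scaling of the forms
-/

set_option autoImplicit false

namespace Pool.Agent.SQ

open NumberField Filter Module
open Pool.Agent.Helper64.Vojta (Pl nv sn above)
open Pool.Agent.V2

universe u

/-! ### an abstract tree -/

open Classical in
/-- the levels of the tree -/
private noncomputable def lv64 {α : Type*} (b : α) (ch : α → Finset α) : ℕ → Finset α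
  | 0 => {b}
  | i + 1 => lv64 b ch i ∪ (lv64 b ch i).biUnion ch

open Classical in
private theorem exists_tree64 {α : Type*} (b : α) (ch : α → Finset α) (r : α → ℕ) (N c : ℕ) (hr : ∀ x, r x ≤ N)
    (hch : ∀ x, ∀ y ∈ ch x, r x < r y) (hc : ∀ x, (ch x).card ≤ c) :
    ∃ T : Finset α, T.card ≤ (1 + c) ^ N ∧ b ∈ T ∧ ∀ x ∈ T, ∀ y ∈ ch x, y ∈ T := by
  have hmono1 : ∀ i, lv64 b ch i ⊆ lv64 b ch (i + 1) := by
    intro i x hx
    rw [lv64]
    exact Finset.mem_union_left _ hx
  have hmono : ∀ i j, i ≤ j → lv64 b ch i ⊆ lv64 b ch j := by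
    intro i j hij
    induction hij with
    | refl => exact Finset.Subset.refl _
    | step _ ih => exact ih.trans (hmono1 _)
  have hstep : ∀ i x y, x ∈ lv64 b ch i → y ∈ ch x → y ∈ lv64 b ch (i + 1) := by
    intro i x y hx hy
    rw [lv64]
    exact Finset.mem_union_right _ (Finset.mem_biUnion.2 ⟨x, hx, hy⟩)
  have hrank : ∀ i x, x ∈ lv64 b ch i → x ∈ lv64 b ch (r x) := by
    intro i
    induction i with
    | zero =>
      intro x hx
      exact hmono 0 _ (Nat.zero_le _) hx
    | succ i ih =>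
      intro x hx
      rw [lv64, Finset.mem_union, Finset.mem_biUnion] at hx
      rcases hx with hx | ⟨y, hy, hxy⟩
      · exact ih x hx
      · exact hmono (r y + 1) _ (hch y x hxy) (hstep _ y x (ih y hy) hxy)
  have hcard : ∀ i, (lv64 b ch i).card ≤ (1 + c) ^ i := by
    intro i
    induction i with
    | zero => simp [lv64]
    | succ i ih =>
      rw [lv64]
      refine (Finset.card_union_le _ _).trans ?_
      have h1 : ((lv64 b ch i).biUnion ch).card ≤ (lv64 b ch i).card * c :=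
        Finset.card_biUnion_le_card_mul _ _ _ fun x _ => hc x
      calc (lv64 b ch i).card + ((lv64 b ch i).biUnion ch).card ≤ (lv64 b ch i).card + (lv64 b ch i).card * c :=
            Nat.add_le_add_left h1 _
        _ = (lv64 b ch i).card * (1 + c) := by ring
        _ ≤ (1 + c) ^ i * (1 + c) := Nat.mul_le_mul_right _ ih
        _ = (1 + c) ^ (i + 1) := by rw [pow_succ]
  refine ⟨lv64 b ch N, hcard N, hmono 0 N (Nat.zero_le _) (by simp [lv64]), fun x hx y hy => ?_⟩
  exact hmono (r x + 1) N ((hch x y hy).trans_le (hr y)) (hstep _ x y (hrank N x hx) hy)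

/-! ### the choice of the subspaces -/

private theorem cxz_nonneg64 {k : Type u} [Field k] [NumberField k] {n : ℕ} (E : Submodule k (Fin (n + 1) → k)) :
    0 ≤ cxz E := by
  refine Real.sInf_nonneg ?_
  rintro _ ⟨b, -, rfl⟩
  refine Finset.sum_nonneg fun _ _ => Finset.sum_nonneg fun _ _ => ?_
  unfold h1z
  exact gsum_nonneg fun _ => Real.log_nonneg (le_max_left _ _)

private theorem finrank_le64 {k : Type*} [Field k] {n : ℕ} (E : Submodule k (Fin (n + 1) → k)) : finrank k E < n + 2 := by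
  have := Submodule.finrank_le E
  rw [Module.finrank_fin_fun] at this
  omega

/-- the dimensions, as an element of a finite type -/
private noncomputable def vf64 {k : Type*} [Field k] {n q : ℕ} (l : Fin q → Fin (n + 1) → k)
    (E U : Submodule k (Fin (n + 1) → k)) : Fin (n + 2) × (Finset (Fin q) → Fin (n + 2)) :=
  (⟨finrank k U, finrank_le64 U⟩, fun J => ⟨finrank k ↥(U ⊓ spJ l E J), finrank_le64 _⟩)

private theorem vez_of_vf64 {k : Type*} [Field k] {n q : ℕ} (l : Fin q → Fin (n + 1) → k)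
    (E U U' : Submodule k (Fin (n + 1) → k)) (h : vf64 l E U' = vf64 l E U) : vez l E U' = vez l E U := by
  have h1 := congrArg (fun p => (p.1 : ℕ)) h
  have h2 : ∀ J, finrank k ↥(U' ⊓ spJ l E J) = finrank k ↥(U ⊓ spJ l E J) := fun J =>
    congrArg (fun p => (p.2 J : ℕ)) h
  unfold vez
  rw [Prod.mk.injEq]
  exact ⟨h1, funext h2⟩

/-- near-minimal choice -/
private theorem exists_min64 {k : Type u} [Field k] [NumberField k] {n : ℕ} (P : Submodule k (Fin (n + 1) → k) → Prop)
    (h : ∃ U, P U) : ∃ U', P U' ∧ ∀ U, P U → cxz U' ≤ cxz U + 1 := by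
  have hne : (cxz '' {U | P U}).Nonempty := by
    obtain ⟨U, hU⟩ := h
    exact ⟨cxz U, U, hU, rfl⟩
  have hb : BddBelow (cxz '' {U | P U}) := by
    refine ⟨0, ?_⟩
    rintro _ ⟨U, -, rfl⟩
    exact cxz_nonneg64 U
  obtain ⟨_, ⟨U', hU', rfl⟩, hlt⟩ := exists_lt_of_csInf_lt hne (lt_add_one (sInf (cxz '' {U | P U})))
  refine ⟨U', hU', fun U hU => ?_⟩
  have h1 : sInf (cxz '' {U | P U}) ≤ cxz U := csInf_le hb ⟨U, hU, rfl⟩
  linarith

theorem exists_cpln (n q : ℕ) : ∃ M : ℕ, ∀ (k : Type u) [Field k] [NumberField k] (l : Fin q → Fin (n + 1) → k),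
    ∃ T : Finset (Submodule k (Fin (n + 1) → k)), T.card ≤ M ∧ CplN l T := by
  classical
  refine ⟨(1 + (Fintype.card (Finset (Finset (Fin q))) +
    Fintype.card (Fin (n + 2) × (Finset (Fin q) → Fin (n + 2))))) ^ (n + 1), fun k _ _ l => ?_⟩
  have hex : ∀ (E : Submodule k (Fin (n + 1) → k)) (c : Fin (n + 2) × (Finset (Fin q) → Fin (n + 2))),
      ∃ U' : Submodule k (Fin (n + 1) → k), (∃ U, E < U ∧ vf64 l E U = c) →
        E < U' ∧ vf64 l E U' = c ∧ ∀ U, E < U → vf64 l E U = c → cxz U' ≤ cxz U + 1 := by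
    intro E c
    by_cases h : ∃ U, E < U ∧ vf64 l E U = c
    · obtain ⟨U', ⟨h1, h2⟩, h3⟩ := exists_min64 (fun U => E < U ∧ vf64 l E U = c) h
      exact ⟨U', fun _ => ⟨h1, h2, fun U h4 h5 => h3 U ⟨h4, h5⟩⟩⟩
    · exact ⟨⊥, fun h' => absurd h' h⟩
  choose pk hpk using hex
  obtain ⟨T, hT1, hT2, hT3⟩ := exists_tree64 (⊥ : Submodule k (Fin (n + 1) → k))
    (fun E => ((Finset.univ.image fun 𝒥 : Finset (Finset (Fin q)) => mtz l E 𝒥) ∪
      (Finset.univ.image fun c => pk E c)).filter fun U => E < U)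
    (fun E => finrank k E) (n + 1)
    (Fintype.card (Finset (Finset (Fin q))) + Fintype.card (Fin (n + 2) × (Finset (Fin q) → Fin (n + 2))))
    (fun E => Nat.lt_succ_iff.1 (finrank_le64 E))
    (fun E U hU => Submodule.finrank_lt_finrank_of_lt (Finset.mem_filter.1 hU).2)
    (fun E => (Finset.card_filter_le _ _).trans ((Finset.card_union_le _ _).trans
      (Nat.add_le_add Finset.card_image_le Finset.card_image_le)))
  refine ⟨T, hT1, hT2, fun E hE _ => ⟨fun 𝒥 h => hT3 E hE _ ?_, fun U hU => ?_⟩⟩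
  · exact Finset.mem_filter.2 ⟨Finset.mem_union_left _ (Finset.mem_image.2 ⟨𝒥, Finset.mem_univ _, rfl⟩), h⟩
  · obtain ⟨h1, h2, h3⟩ := hpk E (vf64 l E U) ⟨U, hU, rfl⟩
    refine ⟨pk E (vf64 l E U), hT3 E hE _ ?_, h1, vez_of_vf64 l E U _ h2, h3 U hU rfl⟩
    exact Finset.mem_filter.2 ⟨Finset.mem_union_right _ (Finset.mem_image.2 ⟨_, Finset.mem_univ _, rfl⟩), h1⟩

/-! ### scaling of the forms -/

private theorem spJ_smul64 {k : Type u} [Field k] {n q : ℕ} (l : Fin q → Fin (n + 1) → k) (c : Fin q → k)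
    (hc : ∀ i, c i ≠ 0) (N : Submodule k (Fin (n + 1) → k)) (J : Finset (Fin q)) :
    spJ (fun i j => c i * l i j) N J = spJ l N J := by
  unfold spJ
  congr 1
  refine le_antisymm (Submodule.span_le.2 ?_) (Submodule.span_le.2 ?_)
  · rintro _ ⟨i, hi, rfl⟩
    have h1 : (fun j => c i * l i j) = c i • l i := rfl
    simp only [h1]
    exact Submodule.smul_mem _ _ (Submodule.subset_span ⟨i, hi, rfl⟩)
  · rintro _ ⟨i, hi, rfl⟩
    have h1 : l i = (c i)⁻¹ • (fun j => c i * l i j) := by
      funext j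
      simp only [Pi.smul_apply, smul_eq_mul]
      rw [inv_mul_cancel_left₀ (hc i)]
    rw [h1]
    exact Submodule.smul_mem _ _ (Submodule.subset_span ⟨i, hi, rfl⟩)

private theorem spJ_eq64 {k : Type u} [Field k] {n q : ℕ} (l : Fin q → Fin (n + 1) → k) (c : Fin q → k)
    (hc : ∀ i, c i ≠ 0) : spJ (fun i j => c i * l i j) = spJ l :=
  funext fun N => funext fun J => spJ_smul64 l c hc N J

private theorem mem_smul64 {k : Type u} [Field k] {n q : ℕ} (l : Fin q → Fin (n + 1) → k) (c : Fin q → k)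
    (hc : ∀ i, c i ≠ 0) (N : Submodule k (Fin (n + 1) → k)) (i : Fin q) : (fun j => c i * l i j) ∈ N ↔ l i ∈ N := by
  have h1 : (fun j => c i * l i j) = c i • l i := rfl
  rw [h1]
  exact Submodule.smul_mem_iff N (hc i)

theorem cpln_smul {k : Type u} [Field k] [NumberField k] {n q : ℕ} (l : Fin q → Fin (n + 1) → k) (c : Fin q → k)
    (hc : ∀ i, c i ≠ 0) (T : Finset (Submodule k (Fin (n + 1) → k))) (h : CplN l T) :
    CplN (fun i j => c i * l i j) T := by
  have h1 : ∀ (E : Submodule k (Fin (n + 1) → k)) (𝒥 : Finset (Finset (Fin q))),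
      mtz (fun i j => c i * l i j) E 𝒥 = mtz l E 𝒥 := by
    intro E 𝒥
    unfold mtz
    rw [spJ_eq64 l c hc]
  have h2 : ∀ E U : Submodule k (Fin (n + 1) → k), vez (fun i j => c i * l i j) E U = vez l E U := by
    intro E U
    unfold vez
    rw [spJ_eq64 l c hc]
  unfold CplN
  simp only [h1, h2]
  exact h

theorem bad_smul {k : Type u} [Field k] {n q : ℕ} (l : Fin q → Fin (n + 1) → k) (c : Fin q → k)
    (hc : ∀ i, c i ≠ 0) (N : Submodule k (Fin (n + 1) → k)) : Bad (fun i j => c i * l i j) N ↔ Bad l N := by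
  have h1 : ∀ i, cost (fun i j => c i * l i j) N i = cost l N i := by
    intro i
    have h3 : Ut (fun i j => c i * l i j) N i = Ut l N i := by
      unfold Ut
      rw [spJ_eq64 l c hc]
      exact iInf_congr fun J => iInf_congr_Prop (and_congr_right fun _ => mem_smul64 l c hc _ i) fun _ => rfl
    unfold cost
    rw [h3]
  unfold Bad
  simp only [h1, mem_smul64 l c hc]

theorem gen_smul {k : Type u} [Field k] {n q : ℕ} (l : Fin q → Fin (n + 1) → k) (c : Fin q → k)
    (hc : ∀ i, c i ≠ 0) (h : GenPos l) : GenPos fun i j => c i * l i j := by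
  intro I hI
  have h1 := (h I hI).units_smul fun i : I => Units.mk0 (c i) (hc i)
  exact h1

end Pool.Agent.SQ
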